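import Pool.Agent.Helper11.PK.Defs

/-!
# Packet SCHR: Schreier's bound for the number of generators of a subgroup of finite index

The spanning tree of the Schreier graph on the left cosets is grown with positive generators only
(this is possible because the graph is finite).
-/

namespace Pool.Agent.Helper89.PK

universe u

/-- A finite set of cosets stable under the generators is stable under the whole group. -/
lemma stable_all {G : Type u} [Group G] {n : ℕ} (b : Fin n → G)
    (hb : Subgroup.closure (Set.range b) = ⊤) (H : Subgroup G) (T : Finset (G ⧸ H))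
    (hT : ∀ κ ∈ T, ∀ j, b j • κ ∈ T) (g : G) : ∀ κ ∈ T, g • κ ∈ T := by
  classical
  have hg : g ∈ Subgroup.closure (Set.range b) := by rw [hb]; exact Subgroup.mem_top g
  induction hg using Subgroup.closure_induction with
  | mem x hx =>
    obtain ⟨j, rfl⟩ := hx
    exact fun κ hκ => hT κ hκ j
  | one => intro κ hκ; simpa using hκ
  | mul x y _ _ hx hy =>
    intro κ hκ
    rw [mul_smul]
    exact hx _ (hy _ hκ)
  | inv x _ hx =>
    intro κ hκ
    have himg : T.image (fun κ => x • κ) = T := by
      apply Finset.eq_of_subset_of_card_le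
      · intro y hy
        obtain ⟨z, hz, rfl⟩ := Finset.mem_image.mp hy
        exact hx z hz
      · rw [Finset.card_image_of_injective _ (MulAction.injective x)]
    rw [← himg] at hκ
    obtain ⟨z, hz, rfl⟩ := Finset.mem_image.mp hκ
    simpa using hz

/-- Growing the tree. -/
lemma exists_tree {G : Type u} [Group G] {n : ℕ} (b : Fin n → G)
    (hb : Subgroup.closure (Set.range b) = ⊤) (H : Subgroup G) [Fintype (G ⧸ H)] (m : ℕ)
    (hm : m < Fintype.card (G ⧸ H)) :
    ∃ (T : Finset (G ⧸ H)) (t : G ⧸ H → G) (E : Finset ((G ⧸ H) × Fin n)),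
      T.card = m + 1 ∧ E.card = m ∧ ((1 : G) : G ⧸ H) ∈ T ∧ t ((1 : G) : G ⧸ H) = 1 ∧
      (∀ κ, (t κ : G ⧸ H) = κ) ∧
      (∀ e ∈ E, e.1 ∈ T ∧ b e.2 • e.1 ∈ T ∧ t (b e.2 • e.1) = b e.2 * t e.1) := by
  classical
  induction m with
  | zero =>
    refine ⟨{((1 : G) : G ⧸ H)}, Function.update Quotient.out ((1 : G) : G ⧸ H) 1, ∅, by simp,
      by simp, by simp, by simp, ?_, by simp⟩
    intro κ
    by_cases h : κ = ((1 : G) : G ⧸ H)
    · subst h; simp
    · rw [Function.update_of_ne h]
      exact QuotientGroup.out_eq' κ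
  | succ m ih =>
    obtain ⟨T, t, E, hTc, hEc, h1, ht1, ht, hE⟩ := ih (by omega)
    have hex : ∃ κ ∈ T, ∃ j, b j • κ ∉ T := by
      by_contra hcon
      push Not at hcon
      have hall := stable_all b hb H T hcon
      have : T = Finset.univ := by
        apply Finset.eq_univ_of_forall
        intro κ
        have h2 := hall (t κ) _ h1
        have h3 : t κ • ((1 : G) : G ⧸ H) = κ := by
          rw [MulAction.Quotient.smul_coe, smul_eq_mul, mul_one, ht]
        rwa [h3] at h2
      rw [this, Finset.card_univ] at hTc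
      omega
    obtain ⟨κ, hκ, j, hj⟩ := hex
    have hne : κ ≠ b j • κ := fun h => hj (h ▸ hκ)
    refine ⟨insert (b j • κ) T, Function.update t (b j • κ) (b j * t κ), insert (κ, j) E,
      ?_, ?_, ?_, ?_, ?_, ?_⟩
    · rw [Finset.card_insert_of_notMem hj, hTc]
    · rw [Finset.card_insert_of_notMem, hEc]
      exact fun h => hj (hE _ h).2.1
    · exact Finset.mem_insert_of_mem h1
    · rw [Function.update_of_ne, ht1]
      exact fun h => hj (h ▸ h1)
    · intro κ'
      by_cases h : κ' = b j • κ
      · subst h
        rw [Function.update_self]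
        conv_rhs => rw [← ht κ]
        rw [MulAction.Quotient.smul_coe, smul_eq_mul]
      · rw [Function.update_of_ne h, ht]
    · intro e he
      rcases Finset.mem_insert.mp he with rfl | he
      · refine ⟨Finset.mem_insert_of_mem hκ, Finset.mem_insert_self _ _, ?_⟩
        simp only
        rw [Function.update_self, Function.update_of_ne hne]
      · obtain ⟨e1, e2, e3⟩ := hE e he
        refine ⟨Finset.mem_insert_of_mem e1, Finset.mem_insert_of_mem e2, ?_⟩
        have n1 : b e.2 • e.1 ≠ b j • κ := fun h => hj (h ▸ e2)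
        have n2 : e.1 ≠ b j • κ := fun h => hj (h ▸ e1)
        rw [Function.update_of_ne n1, Function.update_of_ne n2, e3]

/-- **SCHR.** -/
theorem schr {G : Type u} [Group G] {n : ℕ} (hn : 1 ≤ n) (b : Fin n → G)
    (hb : Subgroup.closure (Set.range b) = ⊤) (H : Subgroup G) [H.FiniteIndex] :
    ∃ c : Fin (1 + H.index * (n - 1)) → G, Subgroup.closure (Set.range c) = H := by
  classical
  have : Fintype (G ⧸ H) := Fintype.ofFinite _
  have hidx : H.index = Fintype.card (G ⧸ H) := by
    rw [Subgroup.index, Nat.card_eq_fintype_card]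
  have hpos : 0 < Fintype.card (G ⧸ H) := Fintype.card_pos
  obtain ⟨T, t, E, hTc, hEc, h1, ht1, ht, hE⟩ :=
    exists_tree b hb H (Fintype.card (G ⧸ H) - 1) (by omega)
  set γ : (G ⧸ H) × Fin n → G := fun e => (t (b e.2 • e.1))⁻¹ * (b e.2 * t e.1) with hγ
  have hγ1 : ∀ e ∈ E, γ e = 1 := by
    intro e he
    rw [hγ]
    simp only
    rw [(hE e he).2.2, inv_mul_cancel]
  have hγH : ∀ e, γ e ∈ H := by
    intro e
    rw [hγ]
    simp only
    rw [← QuotientGroup.eq, ht]
    conv_lhs => rw [← ht e.1]
    rw [MulAction.Quotient.smul_coe, smul_eq_mul]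
  -- the closure of the nontrivial Schreier generators
  set K : Subgroup G := Subgroup.closure (γ '' (↑(Eᶜ) : Set ((G ⧸ H) × Fin n))) with hK
  have hγK : ∀ e, γ e ∈ K := by
    intro e
    by_cases he : e ∈ E
    · rw [hγ1 e he]; exact K.one_mem
    · exact Subgroup.subset_closure ⟨e, by simpa using he, rfl⟩
  have hKH : K = H := by
    apply le_antisymm
    · rw [hK, Subgroup.closure_le]
      rintro _ ⟨e, _, rfl⟩
      exact hγH e
    · have hall : ∀ g : G, ∀ κ : G ⧸ H, (t (g • κ))⁻¹ * (g * t κ) ∈ K := by
        intro g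
        have hg : g ∈ Subgroup.closure (Set.range b) := by rw [hb]; exact Subgroup.mem_top g
        induction hg using Subgroup.closure_induction with
        | mem x hx =>
          obtain ⟨j, rfl⟩ := hx
          exact fun κ => hγK (κ, j)
        | one => intro κ; simp
        | mul x y _ _ hx hy =>
          intro κ
          have h2 := K.mul_mem (hx (y • κ)) (hy κ)
          rw [mul_smul]
          convert h2 using 1
          group
        | inv x _ hx =>
          intro κ
          have h2 := K.inv_mem (hx (x⁻¹ • κ))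
          rw [smul_inv_smul] at h2
          convert h2 using 1
          group
      intro h hh
      have h2 := hall h ((1 : G) : G ⧸ H)
      have h3 : h • ((1 : G) : G ⧸ H) = ((1 : G) : G ⧸ H) := by
        rw [MulAction.Quotient.smul_coe, smul_eq_mul, mul_one, QuotientGroup.eq]
        simpa using hh
      rw [h3, ht1] at h2
      simpa using h2
  have hcard : Fintype.card {e // e ∈ (Eᶜ)} = 1 + H.index * (n - 1) := by
    rw [Fintype.card_coe, Finset.card_compl, hEc, Fintype.card_prod, Fintype.card_fin, hidx]
    obtain ⟨k, rfl⟩ : ∃ k, n = k + 1 := ⟨n - 1, by omega⟩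
    rw [Nat.add_sub_cancel, Nat.mul_add, Nat.mul_one]
    omega
  refine ⟨fun i => γ ((Fintype.equivFinOfCardEq hcard).symm i), ?_⟩
  refine Eq.trans ?_ hKH
  rw [hK]
  congr 1
  ext x
  simp only [Set.mem_range, Set.mem_image, Finset.mem_coe]
  constructor
  · rintro ⟨i, rfl⟩
    exact ⟨_, ((Fintype.equivFinOfCardEq hcard).symm i).2, rfl⟩
  · rintro ⟨e, he, rfl⟩
    exact ⟨Fintype.equivFinOfCardEq hcard ⟨e, he⟩, by simp⟩

end Pool.Agent.Helper89.PK
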